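import Mathlib
import Pool.Agent.TH816.RP.FF

/-!
# The entropy of the primes modulo `q`

The prime tuples conjecture predicts that every one of the `φ(q) ^ ℓ` words of `ℓ` reduced residue classes modulo `q`
is the word of the residues of `ℓ` consecutive primes infinitely often. We prove that the number of the words of
length `ℓ` which occur infinitely often is at least `(c φ(q) / log φ(q)) ^ ℓ`, for all `ℓ` and `q`, with an absolute
constant `c > 0`: the topological entropy of the sequence of the primes modulo `q` is at least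
`log φ(q) - log log φ(q) - O(1)` (the trivial upper bound, and the conjectured value, is `log φ(q)`).
-/

set_option autoImplicit false

namespace Pool.Agent.Results.MP_8923e7_nt.EntropyModQ

open Pool.Agent.TH816.RP

/-- The word `w` of `ℓ` reduced residue classes modulo `q` occurs infinitely often among the consecutive primes
(in intervals of length `C`): for infinitely many `n` we have `p_(n+i) ≡ w i` modulo `q` for `0 ≤ i < ℓ` and
`p_(n+ℓ-1) - p_n ≤ C`, where `p_n = Nat.nth Nat.Prime n` are the primes in increasing order. -/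
def Occurs (q ℓ C : ℕ) (w : Fin ℓ → (ZMod q)ˣ) : Prop :=
  {n : ℕ | (∀ i : Fin ℓ, ((Nat.nth Nat.Prime (n + i) : ℕ) : ZMod q) = w i) ∧
    Nat.nth Nat.Prime (n + (ℓ - 1)) ≤ Nat.nth Nat.Prime n + C}.Infinite

/-- There is an absolute constant `c > 0` such that for every `q ≥ 1` and every `ℓ ≥ 1` at least
`(c φ(q) / log φ(q)) ^ ℓ` words of length `ℓ` in the reduced residue classes modulo `q` are, infinitely often, the
words of the residues of `ℓ` consecutive primes which lie in an interval of bounded length (depending on `q`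
and `ℓ` only). -/
theorem result : ∃ c : ℝ, 0 < c ∧ ∀ (q : ℕ) [NeZero q] (ℓ : ℕ), 1 ≤ ℓ → ∃ C : ℕ,
    (c * (q.totient : ℝ) / Real.log q.totient) ^ ℓ ≤
      ({w : Fin ℓ → (ZMod q)ˣ | Occurs q ℓ C w}.ncard : ℝ) := by
  classical
  refine ⟨Real.exp (-81), Real.exp_pos _, ?_⟩
  intro q _ ℓ hℓ
  obtain ⟨m, rfl⟩ : ∃ m, ℓ = m + 1 := ⟨ℓ - 1, by omega⟩
  obtain ⟨C, hC⟩ := entropy_mod q m
  refine ⟨C, hC.trans (le_of_eq ?_)⟩
  rw [← Set.ncard_coe_finset]
  congr 2
  ext w
  simp only [Finset.coe_filter, Finset.mem_univ, true_and]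
  rfl

end Pool.Agent.Results.MP_8923e7_nt.EntropyModQ
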