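import Mathlib
import Pool.Agent.TH891.Rec2

/-!
# Optimal multiple recurrence along tuples of shifts satisfying the prime k-tuples conjecture

For every `k` and `ε > 0` there are `M` and `c > 0` with the following property. Let `V` be a finite set
of at least `M` natural numbers which misses a residue class modulo every prime `p ≤ 4 k + 1`, and let
`f v`, `v ∈ V`, be arbitrary measurable functions with values in `[0, 1]` on an arbitrary probability
space (for instance the indicator functions of `T^{-v} E` in a measure preserving system). Then at least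
`c |V| ^ (k + 1)` ordered `(k + 1)`-tuples `a` of distinct elements of `V` have the property that
`n + a 0, ..., n + a k` are all prime for infinitely many `n` and, at the same time,
`∫ ∏ i, f (a i) ≥ ∏ i, ∫ f (a i) - ε`.

The proof combines an explicit form of the Maynard-Tao theorem of the starting files
(`Pool.Agent.Results.MP_8923e7_nt.TupleProportion`) with the finite Ramsey theorem for hypergraphs.
-/

set_option autoImplicit false

namespace Pool.Agent.Results.MP_8923e7_nt.OptimalRecurrence

open MeasureTheory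

universe u

theorem result (k : ℕ) (ε : ℝ) (hε : 0 < ε) : ∃ (M : ℕ) (c : ℝ), 0 < c ∧ ∀ V : Finset ℕ,
    (∀ p : ℕ, p ≤ 4 * k + 1 → p.Prime → ∃ r : ℕ, ∀ v ∈ V, ¬ v ≡ r [MOD p]) → M ≤ V.card →
    ∀ (Ω : Type u) [MeasurableSpace Ω] (μ : Measure Ω) [IsProbabilityMeasure μ] (f : ℕ → Ω → ℝ),
      (∀ v ∈ V, Measurable (f v)) → (∀ v ∈ V, ∀ ω, 0 ≤ f v ω ∧ f v ω ≤ 1) →
      c * (V.card : ℝ) ^ (k + 1) ≤
        ({a : Fin (k + 1) → ℕ | (∀ i, a i ∈ V) ∧ Function.Injective a ∧
          {n : ℕ | ∀ i, (n + a i).Prime}.Infinite ∧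
          (∏ i, ∫ ω, f (a i) ω ∂μ) - ε ≤ ∫ ω, ∏ i, f (a i) ω ∂μ}.ncard : ℝ) :=
  Pool.Agent.TH891.Rec.main k ε hε

end Pool.Agent.Results.MP_8923e7_nt.OptimalRecurrence
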