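import Pool.Agent.H358R5.MainC
import Pool.Agent.TH779.Shat.Main

/-!
# Every pattern of primality is realised on logarithmically many of the forms

Let `a_i n + b_i`, `i < K`, be an admissible family of pairwise non-proportional linear forms, for
instance `n + h_i` for an admissible set of `K` shifts. A set `B` of indices is shattered if for
EVERY subset `C` of `B` there are many `n` such that the forms with index in `C` have prime values
at `n` and the other forms with index in `B` do not. The theorem: at least
`exp ((1/16 - ε) log² K)` sets `B` are shattered, some of them with at least `(1/16 - ε) log K`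
elements. (The prime tuples conjecture says that all `2 ^ K` sets are shattered.)

Proof: the theorem of Maynard and Tao with explicit numbers (`Pool.Agent.H358R5.forms_many` of the
starting files) and congruences show that inside every set of `√K` indices there is a set `T` with
at least `(1/8 - ε) log K` elements such that the forms with index in `T`, and no others of the
family, have prime values at many `n`. So there are at least `(√K) ^ ((1/8 - ε) log K)` such sets
`T`, and Pajor's form of the Sauer-Shelah lemma applies.
-/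

set_option autoImplicit false

namespace Pool.Agent.Results.MP_8923e7_nt.ShatteredForms

open Filter

/-- The number of positive integers `n ≤ x` such that, among the forms `a_i n + b_i` with index
`i` in `B`, exactly those with index in `C` have a prime value at `n`. -/
noncomputable def count {K : ℕ} (a b : Fin K → ℕ) (B C : Finset (Fin K)) (x : ℝ) : ℕ :=
  Set.ncard {n : ℕ | 1 ≤ n ∧ (n : ℝ) ≤ x ∧ ∀ i ∈ B, ((a i * n + b i).Prime ↔ i ∈ C)}

/-- `G` is a collection of at least `exp (κ log² K)` sets of indices, one of which has at least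
`κ log K` elements. -/
def Large {K : ℕ} (κ : ℝ) (G : Finset (Finset (Fin K))) : Prop :=
  Real.exp (κ * Real.log K ^ 2) ≤ G.card ∧ ∃ B ∈ G, κ * Real.log K ≤ B.card

/-- For every `ε > 0` and all large `K`, every admissible family of `K` pairwise non-proportional
linear forms `a_i n + b_i` (`a_i ≥ 1`, `b_i ≥ 0`) has the following property. For every `η > 0` and
all large `x` there is a collection `G` of at least `exp ((1/16 - ε) log² K)` sets of indices, one
of them with at least `(1/16 - ε) log K` elements, such that for every `B` in `G` and every subset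
`C` of `B` there are at least `x ^ (1 - η)` positive integers `n ≤ x` at which exactly the forms
with index in `C` have prime values, among the forms with index in `B`. Moreover there is one such
collection `G` which works for all `η > 0` and, for every `η`, arbitrarily large `x`. -/
theorem result (ε : ℝ) (hε : 0 < ε) : ∃ K₀ : ℕ, ∀ K : ℕ, K₀ ≤ K → ∀ a b : Fin K → ℕ,
    (∀ i, 1 ≤ a i) → (∀ i j, i ≠ j → a i * b j ≠ a j * b i) →
    (∀ p : ℕ, p.Prime → ∃ n : ℕ, ∀ i, ¬ p ∣ a i * n + b i) →
    (∀ η : ℝ, 0 < η → ∀ᶠ x : ℝ in atTop, ∃ G : Finset (Finset (Fin K)),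
      Large (1 / 16 - ε) G ∧ ∀ B ∈ G, ∀ C ⊆ B, x ^ (1 - η) ≤ count a b B C x) ∧
    ∃ G : Finset (Finset (Fin K)), Large (1 / 16 - ε) G ∧
      ∀ η : ℝ, 0 < η → ∃ᶠ x : ℝ in atTop, ∀ B ∈ G, ∀ C ⊆ B, x ^ (1 - η) ≤ count a b B C x := by
  obtain ⟨K₀, h⟩ := Pool.Agent.TH779.Shat.many_shattered Pool.Agent.H358R5.forms_many ε hε
  refine ⟨K₀, fun K hK a b ha hne hloc => ?_⟩
  have h1 : ∀ η : ℝ, 0 < η → ∀ᶠ x : ℝ in atTop, ∃ G : Finset (Finset (Fin K)),
      Large (1 / 16 - ε) G ∧ ∀ B ∈ G, ∀ C ⊆ B, x ^ (1 - η) ≤ count a b B C x := by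
    intro η hη
    filter_upwards [h K hK a b ha hne hloc η hη] with x hx
    obtain ⟨G, hG1, hG2, hG3⟩ := hx
    exact ⟨G, ⟨hG1, hG2⟩, hG3⟩
  refine ⟨h1, ?_⟩
  obtain ⟨G, hG⟩ := Pool.Agent.TH779.Shat.one_object
    (fun (G : Finset (Finset (Fin K))) η x => Large (1 / 16 - ε) G ∧
      ∀ B ∈ G, ∀ C ⊆ B, x ^ (1 - η) ≤ count a b B C x)
    (by
      intro G η η' x hx hηη' hG
      refine ⟨hG.1, fun B hB C hC => le_trans ?_ (hG.2 B hB C hC)⟩
      exact Real.rpow_le_rpow_of_exponent_le hx (by linarith)) h1
  refine ⟨G, ?_, fun η hη => (hG η hη).mono fun x hx => hx.2⟩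
  obtain ⟨x, hx⟩ := (hG 1 one_pos).exists
  exact hx.1

end Pool.Agent.Results.MP_8923e7_nt.ShatteredForms
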