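import Mathlib
import Pool.Agent.TH899.UG.USub

/-!
# Prime tuples near subsums of arbitrary vectors of shifts, as large as the primes themselves

For all `k` and `m` there are `n` and `C` such that for every `η > 0` and all large `x` the following
holds for ANY vectors `v 1, ..., v n` of `k` integers `|v j i| ≤ x`. There are a nonempty set `J` and sets
`A 0, ..., A k` of `m` integers each, pairwise disjoint, `0 ∈ A 0`, with the elements of `A 0` within `C`
of `0` and those of `A i` within `C` of `∑_{j ∈ J} v j i`, such that for at least `x ^ (1 - η)` primes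
`N ≤ C x` all the `N + a` with `a` in one of the `A i` are primes. If all the vectors are equal to `v` the
subsum is the multiple `|J| v`.

Proof: a coloured Maynard-Tao theorem uniform in constant terms as large as the variable, and the density
Hales-Jewett theorem.
-/

set_option autoImplicit false

namespace Pool.Agent.Results.MP_8923e7_nt.UniformSubsums

open Filter Finset

theorem result (k m : ℕ) (hm : 1 ≤ m) : ∃ n C : ℕ, ∀ η : ℝ, 0 < η → ∀ᶠ x : ℕ in atTop,
    ∀ v : Fin n → Fin k → ℤ, (∀ j i, |v j i| ≤ x) →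
    ∃ J : Finset (Fin n), J.Nonempty ∧ ∃ A : Fin (k + 1) → Finset ℤ,
      0 ∈ A 0 ∧ (∀ i, (A i).card = m) ∧ (∀ i j, i ≠ j → Disjoint (A i) (A j)) ∧
      (∀ a ∈ A 0, |a| ≤ C) ∧ (∀ i : Fin k, ∀ a ∈ A i.succ, |a - ∑ j ∈ J, v j i| ≤ C) ∧
      (x : ℝ) ^ (1 - η) ≤ ({N : ℕ | N ≤ C * x ∧ N.Prime ∧
        ∀ i, ∀ a ∈ A i, ∃ p : ℕ, p.Prime ∧ (p : ℤ) = N + a}.ncard : ℝ) :=
  Pool.Agent.TH899.UG.USub.main k m hm

end Pool.Agent.Results.MP_8923e7_nt.UniformSubsums
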